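import Pool.Agent.Lib.MP_14e6e2_co.Main

/-! The realisable proportion of the suspension, up to a factor tending to one. -/

namespace Pool.Agent.Results.MP_14e6e2_co.Asymptotic

open Pool.Agent.Lib.MP_14e6e2_co

theorem result {V : Type} [Fintype V] [DecidableEq V] (G : SimpleGraph V) (n : ℕ)
    (hn : Fintype.card V = n) (h2 : 2 ≤ n) :
    (1 - (1 + Real.log (2 * (n + 1))) / (n + 1)) * prop G ≤ prop (susp G) :=
  main G n hn h2

end Pool.Agent.Results.MP_14e6e2_co.Asymptotic
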