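import Pool.Agent.Lib.MP_14e6e2_co.Ex.Fin

/-! The exact inequality for large graphs with a large independent set. -/

namespace Pool.Agent.Results.MP_14e6e2_co.ExactIndep

open Pool.Agent.Lib.MP_14e6e2_co

theorem result {V : Type} [Fintype V] [DecidableEq V] (G : SimpleGraph V) (n : ℕ)
    (hn : Fintype.card V = n) (h0 : 10 ^ 40 ≤ n)
    (I : Finset V) (hI : G.IsIndepSet (I : Set V)) (h : 0.82 * (n : ℝ) ≤ I.card) :
    prop G ≤ prop (susp G) :=
  Ex.fin G n hn h0 (Or.inr (Or.inl ⟨I, hI, h⟩))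

end Pool.Agent.Results.MP_14e6e2_co.ExactIndep
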