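import Pool.Agent.Lib.MP_14e6e2_co.Ex.Fin

/-! The exact inequality for large graphs with few edges. -/

namespace Pool.Agent.Results.MP_14e6e2_co.ExactSparse

open Pool.Agent.Lib.MP_14e6e2_co

theorem result {V : Type} [Fintype V] [DecidableEq V] (G : SimpleGraph V) (n : ℕ)
    (hn : Fintype.card V = n) (h0 : 10 ^ 40 ≤ n)
    (h : (G.edgeSet.ncard : ℝ) ≤ 1.03 * n) :
    prop G ≤ prop (susp G) :=
  Ex.fin G n hn h0 (Or.inl h)

end Pool.Agent.Results.MP_14e6e2_co.ExactSparse
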