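import Pool.Agent.Lib.MP_14e6e2_co.Ex.Fin

/-! The exact inequality for large graphs with a widely spread Lipschitz function. -/

namespace Pool.Agent.Results.MP_14e6e2_co.ExactSpread

open Pool.Agent.Lib.MP_14e6e2_co

theorem result {V : Type} [Fintype V] [DecidableEq V] (G : SimpleGraph V) (n : ℕ)
    (hn : Fintype.card V = n) (h0 : 10 ^ 40 ≤ n)
    (f : V → ℝ) (hf : ∀ u v, G.Adj u v → |f u - f v| ≤ 1)
    (h : 3 * (n : ℝ) ^ 3 / Real.log n ≤ ∑ u, ∑ v, (f u - f v) ^ 2) :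
    prop G ≤ prop (susp G) :=
  Ex.fin G n hn h0 (Or.inr (Or.inr ⟨f, hf, h⟩))

end Pool.Agent.Results.MP_14e6e2_co.ExactSpread
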